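import Mathlib

set_option autoImplicit false
set_option linter.unreachableTactic false
set_option linter.unusedTactic false
set_option linter.unusedSimpArgs false

namespace Pool.Agent.Results.MP_9a0e7c_co.ContractionNoMotion

/-- First configuration: the four rays of a square cone and the antipodes of the four
facet normals. -/
noncomputable def pp : Fin 8 → EuclideanSpace ℝ (Fin 3) :=
  ![!₂[153/697, 672/697, 104/697], !₂[153/697, -672/697, 104/697],
    !₂[-153/697, 672/697, 104/697], !₂[-153/697, -672/697, 104/697],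
    !₂[104/185, 0, -153/185], !₂[-104/185, 0, -153/185],
    !₂[0, 13/85, -84/85], !₂[0, -13/85, -84/85]]

/-- Second configuration: the last four points are replaced by their antipodes. -/
noncomputable def qq : Fin 8 → EuclideanSpace ℝ (Fin 3) :=
  ![!₂[153/697, 672/697, 104/697], !₂[153/697, -672/697, 104/697],
    !₂[-153/697, 672/697, 104/697], !₂[-153/697, -672/697, 104/697],
    !₂[-104/185, 0, 153/185], !₂[104/185, 0, 153/185],
    !₂[0, -13/85, 84/85], !₂[0, 13/85, 84/85]]

lemma pp_norm : ∀ i, ‖pp i‖ = 1 := by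
  intro i
  fin_cases i <;> simp [pp, EuclideanSpace.norm_eq, Fin.sum_univ_succ] <;> norm_num

lemma qq_norm : ∀ i, ‖qq i‖ = 1 := by
  intro i
  fin_cases i <;> simp [qq, EuclideanSpace.norm_eq, Fin.sum_univ_succ] <;> norm_num

lemma inner3 (x y : EuclideanSpace ℝ (Fin 3)) :
    inner ℝ x y = x 0 * y 0 + x 1 * y 1 + x 2 * y 2 := by
  simp [PiLp.inner_apply, Fin.sum_univ_succ]
  ring

lemma angle_unit {E : Type*} [NormedAddCommGroup E] [InnerProductSpace ℝ E] (x y : E)
    (hx : ‖x‖ = 1) (hy : ‖y‖ = 1) :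
    InnerProductGeometry.angle x y = Real.arccos (inner ℝ x y) := by
  rw [InnerProductGeometry.angle, hx, hy]; simp

lemma inner_le {i j : Fin 8} : inner ℝ (pp i) (pp j) ≤ inner ℝ (qq i) (qq j) := by
  rw [inner3, inner3]
  fin_cases i <;> fin_cases j <;> simp [pp, qq] <;> norm_num

lemma inner_of_angle {E : Type*} [NormedAddCommGroup E] [InnerProductSpace ℝ E] (x y : E)
    (hx : ‖x‖ = 1) (hy : ‖y‖ = 1) :
    inner ℝ x y = Real.cos (InnerProductGeometry.angle x y) := by
  rw [InnerProductGeometry.cos_angle, hx, hy]; simp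

/-- A contraction of a configuration of the 2-sphere which cannot be realised by a monotone motion
in the 4-sphere. -/
theorem result :
    ∃ (N : ℕ) (p q : Fin N → EuclideanSpace ℝ (Fin 3)),
      (∀ i, ‖p i‖ = 1) ∧ (∀ i, ‖q i‖ = 1) ∧
      (∀ i j, InnerProductGeometry.angle (q i) (q j) ≤ InnerProductGeometry.angle (p i) (p j)) ∧
      ∀ ι : EuclideanSpace ℝ (Fin 3) →ₗᵢ[ℝ] EuclideanSpace ℝ (Fin 5),
      ¬ ∃ m : ℝ → Fin N → EuclideanSpace ℝ (Fin 5),
        m 0 = (fun i => ι (p i)) ∧ m 1 = (fun i => ι (q i)) ∧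
        ContinuousOn m (Set.Icc 0 1) ∧
        (∀ t ∈ Set.Icc (0:ℝ) 1, ∀ i, ‖m t i‖ = 1) ∧
        ∀ i j,
          MonotoneOn (fun t => InnerProductGeometry.angle (m t i) (m t j)) (Set.Icc 0 1) ∨
          AntitoneOn (fun t => InnerProductGeometry.angle (m t i) (m t j)) (Set.Icc 0 1) := by
  refine ⟨8, pp, qq, pp_norm, qq_norm, ?_, ?_⟩
  · intro i j
    rw [angle_unit _ _ (qq_norm i) (qq_norm j), angle_unit _ _ (pp_norm i) (pp_norm j)]
    exact Real.arccos_le_arccos inner_le
  rintro ι ⟨m, h0, h1, hc, hn, hm⟩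
  have z : (0:ℝ) ∈ Set.Icc (0:ℝ) 1 := by simp
  have o : (1:ℝ) ∈ Set.Icc (0:ℝ) 1 := by simp
  -- inner products which agree at both ends are constant
  have key : ∀ t ∈ Set.Icc (0:ℝ) 1, ∀ i j, inner ℝ (pp i) (pp j) = inner ℝ (qq i) (qq j) →
      inner ℝ (m t i) (m t j) = inner ℝ (pp i) (pp j) := by
    intro t ht i j hij
    have d0 : InnerProductGeometry.angle (m 0 i) (m 0 j) =
        Real.arccos (inner ℝ (pp i) (pp j)) := by
      rw [angle_unit _ _ (hn 0 z i) (hn 0 z j), h0]; simp
    have d1 : InnerProductGeometry.angle (m 1 i) (m 1 j) =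
        Real.arccos (inner ℝ (qq i) (qq j)) := by
      rw [angle_unit _ _ (hn 1 o i) (hn 1 o j), h1]; simp
    have dt : InnerProductGeometry.angle (m t i) (m t j) =
        InnerProductGeometry.angle (m 0 i) (m 0 j) := by
      rcases hm i j with h | h
      · have a := h z ht ht.1
        have b := h ht o ht.2
        simp only at a b
        rw [d1, ← hij, ← d0] at b
        linarith
      · have a := h z ht ht.1
        have b := h ht o ht.2
        simp only at a b
        rw [d1, ← hij, ← d0] at b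
        linarith
    rw [inner_of_angle _ _ (hn t ht i) (hn t ht j), dt, ← inner_of_angle _ _ (hn 0 z i) (hn 0 z j),
      h0]
    simp
  -- the intermediate value theorem
  have hcont : ContinuousOn (fun t => inner ℝ (m t 0) (m t 5)) (Set.Icc (0:ℝ) 1) := by
    have c0 : ContinuousOn (fun t => m t 0) (Set.Icc (0:ℝ) 1) :=
      (continuous_apply (0 : Fin 8)).comp_continuousOn hc
    have c4 : ContinuousOn (fun t => m t 5) (Set.Icc (0:ℝ) 1) :=
      (continuous_apply (5 : Fin 8)).comp_continuousOn hc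
    exact c0.inner c4
  have hv0 : inner ℝ (m 0 0) (m 0 5) < (0:ℝ) := by
    rw [h0]; show inner ℝ (ι (pp 0)) (ι (pp 5)) < (0:ℝ)
    rw [LinearIsometry.inner_map_map, inner3]; simp [pp]; norm_num
  have hv1 : (0:ℝ) < inner ℝ (m 1 0) (m 1 5) := by
    rw [h1]; show (0:ℝ) < inner ℝ (ι (qq 0)) (ι (qq 5))
    rw [LinearIsometry.inner_map_map, inner3]; simp [qq]; norm_num
  obtain ⟨t, ht, hz⟩ : ∃ t ∈ Set.Icc (0:ℝ) 1, inner ℝ (m t 0) (m t 5) = (0:ℝ) := by
    have := intermediate_value_Icc (zero_le_one' ℝ) hcont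
    obtain ⟨t, ht, h⟩ := this ⟨hv0.le, hv1.le⟩
    exact ⟨t, ht, h⟩
  have kk : ∀ i j, inner ℝ (pp i) (pp j) = inner ℝ (qq i) (qq j) →
      inner ℝ (m t i) (m t j) = inner ℝ (pp i) (pp j) := fun i j h => key t ht i j h
  have nn : ∀ i, inner ℝ (m t i) (m t i) = (1:ℝ) := by
    intro i; rw [real_inner_self_eq_norm_sq, hn t ht i]; norm_num
  have vanish : ∀ v : EuclideanSpace ℝ (Fin 5), inner ℝ v v = (0:ℝ) → v = 0 := by
    intro v hv; exact inner_self_eq_zero.1 hv
  -- Gram matrix of the first group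
  have a01 : inner ℝ (m t 0) (m t 1) = ((153^2 - 672^2 + 104^2) / 697^2:ℝ) := by
    rw [kk 0 1 (by simp [inner3, pp, qq])]; simp [inner3, pp] <;> norm_num
  have a02 : inner ℝ (m t 0) (m t 2) = ((-153^2 + 672^2 + 104^2) / 697^2:ℝ) := by
    rw [kk 0 2 (by simp [inner3, pp, qq])]; simp [inner3, pp] <;> norm_num
  have a03 : inner ℝ (m t 0) (m t 3) = ((-153^2 - 672^2 + 104^2) / 697^2:ℝ) := by
    rw [kk 0 3 (by simp [inner3, pp, qq])]; simp [inner3, pp] <;> norm_num
  have a12 : inner ℝ (m t 1) (m t 2) = ((-153^2 - 672^2 + 104^2) / 697^2:ℝ) := by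
    rw [kk 1 2 (by simp [inner3, pp, qq])]; simp [inner3, pp] <;> norm_num
  have a13 : inner ℝ (m t 1) (m t 3) = ((-153^2 + 672^2 + 104^2) / 697^2:ℝ) := by
    rw [kk 1 3 (by simp [inner3, pp, qq])]; simp [inner3, pp] <;> norm_num
  have a23 : inner ℝ (m t 2) (m t 3) = ((153^2 - 672^2 + 104^2) / 697^2:ℝ) := by
    rw [kk 2 3 (by simp [inner3, pp, qq])]; simp [inner3, pp] <;> norm_num
  -- Gram matrix of the second group
  have b45 : inner ℝ (m t 4) (m t 5) = ((-104^2 + 153^2) / 185^2:ℝ) := by
    rw [kk 4 5 (by simp [inner3, pp, qq] <;> norm_num)]; simp [inner3, pp] <;> norm_num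
  have b46 : inner ℝ (m t 4) (m t 6) = ((153 * 84) / (185 * 85):ℝ) := by
    rw [kk 4 6 (by simp [inner3, pp, qq] <;> norm_num)]; simp [inner3, pp] <;> norm_num
  have b47 : inner ℝ (m t 4) (m t 7) = ((153 * 84) / (185 * 85):ℝ) := by
    rw [kk 4 7 (by simp [inner3, pp, qq] <;> norm_num)]; simp [inner3, pp] <;> norm_num
  have b56 : inner ℝ (m t 5) (m t 6) = ((153 * 84) / (185 * 85):ℝ) := by
    rw [kk 5 6 (by simp [inner3, pp, qq] <;> norm_num)]; simp [inner3, pp] <;> norm_num
  have b57 : inner ℝ (m t 5) (m t 7) = ((153 * 84) / (185 * 85):ℝ) := by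
    rw [kk 5 7 (by simp [inner3, pp, qq] <;> norm_num)]; simp [inner3, pp] <;> norm_num
  have b67 : inner ℝ (m t 6) (m t 7) = ((-13^2 + 84^2) / 85^2:ℝ) := by
    rw [kk 6 7 (by simp [inner3, pp, qq] <;> norm_num)]; simp [inner3, pp] <;> norm_num
  -- incidences
  have c04 : inner ℝ (m t 0) (m t 4) = (0:ℝ) := by
    rw [kk 0 4 (by simp [inner3, pp, qq] <;> norm_num)]; simp [inner3, pp] <;> norm_num
  have c14 : inner ℝ (m t 1) (m t 4) = (0:ℝ) := by
    rw [kk 1 4 (by simp [inner3, pp, qq] <;> norm_num)]; simp [inner3, pp] <;> norm_num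
  have c25 : inner ℝ (m t 2) (m t 5) = (0:ℝ) := by
    rw [kk 2 5 (by simp [inner3, pp, qq] <;> norm_num)]; simp [inner3, pp] <;> norm_num
  have c35 : inner ℝ (m t 3) (m t 5) = (0:ℝ) := by
    rw [kk 3 5 (by simp [inner3, pp, qq] <;> norm_num)]; simp [inner3, pp] <;> norm_num
  have c06 : inner ℝ (m t 0) (m t 6) = (0:ℝ) := by
    rw [kk 0 6 (by simp [inner3, pp, qq] <;> norm_num)]; simp [inner3, pp] <;> norm_num
  have c26 : inner ℝ (m t 2) (m t 6) = (0:ℝ) := by
    rw [kk 2 6 (by simp [inner3, pp, qq] <;> norm_num)]; simp [inner3, pp] <;> norm_num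
  have c17 : inner ℝ (m t 1) (m t 7) = (0:ℝ) := by
    rw [kk 1 7 (by simp [inner3, pp, qq] <;> norm_num)]; simp [inner3, pp] <;> norm_num
  have c37 : inner ℝ (m t 3) (m t 7) = (0:ℝ) := by
    rw [kk 3 7 (by simp [inner3, pp, qq] <;> norm_num)]; simp [inner3, pp] <;> norm_num
  -- linear relations inside the two groups
  have ea : m t 3 = m t 1 + m t 2 - m t 0 := by
    rw [← sub_eq_zero]
    apply vanish
    simp only [inner_sub_left, inner_sub_right, inner_add_left, inner_add_right,
      real_inner_comm (m t 0) (m t 1), real_inner_comm (m t 0) (m t 2),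
      real_inner_comm (m t 0) (m t 3), real_inner_comm (m t 1) (m t 2),
      real_inner_comm (m t 1) (m t 3), real_inner_comm (m t 2) (m t 3),
      nn, a01, a02, a03, a12, a13, a23]
    norm_num
  have eb : m t 7 = (168 * 185 / (85 * 306) : ℝ) • (m t 4 + m t 5) - m t 6 := by
    rw [← sub_eq_zero]
    apply vanish
    simp only [inner_sub_left, inner_sub_right, inner_add_left, inner_add_right,
      real_inner_smul_left, real_inner_smul_right,
      real_inner_comm (m t 4) (m t 5), real_inner_comm (m t 4) (m t 6),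
      real_inner_comm (m t 4) (m t 7), real_inner_comm (m t 5) (m t 6),
      real_inner_comm (m t 5) (m t 7), real_inner_comm (m t 6) (m t 7),
      nn, b45, b46, b47, b56, b57, b67]
    norm_num
  have r15 : inner ℝ (m t 1) (m t 5) = (0:ℝ) := by
    have h := c35
    rw [ea] at h
    simp only [inner_sub_left, inner_add_left, c25, hz] at h
    linarith
  have r07 : inner ℝ (m t 0) (m t 7) = (0:ℝ) := by
    rw [eb]
    simp only [inner_sub_right, inner_add_right, real_inner_smul_right, c04, hz, c06]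
    norm_num
  have r16 : inner ℝ (m t 1) (m t 6) = (0:ℝ) := by
    have h := c17
    rw [eb] at h
    simp only [inner_sub_right, inner_add_right, real_inner_smul_right, c14, r15] at h
    linarith
  have r27 : inner ℝ (m t 2) (m t 7) = (0:ℝ) := by
    have h := c37
    rw [ea] at h
    simp only [inner_sub_left, inner_add_left, c17, r07] at h
    linarith
  have r24 : inner ℝ (m t 2) (m t 4) = (0:ℝ) := by
    have h := r27
    rw [eb] at h
    simp only [inner_sub_right, inner_add_right, real_inner_smul_right, c25, c26] at h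
    linarith
  have r34 : inner ℝ (m t 3) (m t 4) = (0:ℝ) := by
    rw [ea]
    simp only [inner_sub_left, inner_add_left, c04, c14, r24]
    norm_num
  have r36 : inner ℝ (m t 3) (m t 6) = (0:ℝ) := by
    rw [ea]
    simp only [inner_sub_left, inner_add_left, c06, c26, r16]
    norm_num
  -- six orthonormal vectors in a five-dimensional space
  let w : Fin 6 → EuclideanSpace ℝ (Fin 5) :=
    ![(697 / 612 : ℝ) • (m t 0 + m t 1 - m t 2 - m t 3),
      (697 / 2688 : ℝ) • (m t 0 - m t 1 + m t 2 - m t 3),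
      (697 / 416 : ℝ) • (m t 0 + m t 1 + m t 2 + m t 3),
      (185 / 208 : ℝ) • (m t 5 - m t 4),
      (85 / 26 : ℝ) • (m t 7 - m t 6),
      (185 / 306 : ℝ) • (m t 4 + m t 5)]
  have hw : Orthonormal ℝ w := by
    rw [orthonormal_iff_ite]
    intro i j
    fin_cases i <;> fin_cases j <;>
      simp only [w, Fin.zero_eta, Fin.mk_one, Fin.reduceFinMk, Matrix.cons_val, inner_sub_left, inner_sub_right, inner_add_left, inner_add_right,
        real_inner_smul_left, real_inner_smul_right, real_inner_comm (m t 0) (m t 1), real_inner_comm (m t 0) (m t 2), 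
        real_inner_comm (m t 0) (m t 3), real_inner_comm (m t 0) (m t 4), 
        real_inner_comm (m t 0) (m t 5), real_inner_comm (m t 0) (m t 6), 
        real_inner_comm (m t 0) (m t 7), real_inner_comm (m t 1) (m t 2), 
        real_inner_comm (m t 1) (m t 3), real_inner_comm (m t 1) (m t 4), 
        real_inner_comm (m t 1) (m t 5), real_inner_comm (m t 1) (m t 6), 
        real_inner_comm (m t 1) (m t 7), real_inner_comm (m t 2) (m t 3), 
        real_inner_comm (m t 2) (m t 4), real_inner_comm (m t 2) (m t 5), 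
        real_inner_comm (m t 2) (m t 6), real_inner_comm (m t 2) (m t 7), 
        real_inner_comm (m t 3) (m t 4), real_inner_comm (m t 3) (m t 5), 
        real_inner_comm (m t 3) (m t 6), real_inner_comm (m t 3) (m t 7), 
        real_inner_comm (m t 4) (m t 5), real_inner_comm (m t 4) (m t 6), 
        real_inner_comm (m t 4) (m t 7), real_inner_comm (m t 5) (m t 6), 
        real_inner_comm (m t 5) (m t 7), real_inner_comm (m t 6) (m t 7), 
        
        nn, a01, a02, a03, a12, a13, a23, b45, b46, b47, b56, b57, b67,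
        c04, c14, c25, c35, c06, c26, c17, c37, hz, r15, r07, r16, r27, r24, r34, r36] <;>
      norm_num <;> decide
  have := hw.linearIndependent.fintype_card_le_finrank
  simp at this

end Pool.Agent.Results.MP_9a0e7c_co.ContractionNoMotion
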